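import Pool.Agent.Results.MP_042ec1_co.BoundedCw
import Pool.Agent.Results.MP_042ec1_co.S123Bounded

set_option autoImplicit false

/-! The `(K₃, H₂)`-free atoms have bounded clique-width for `H₂ = P₁ + S_{1,1,3}` and
`H₂ = S_{1,2,3}`. -/

namespace Pool.Agent.Results.MP_43eff6_co.AtomsBoundedCw

open SimpleGraph Pool.Agent.Helper856.Lcw Pool.Agent.Helper856.Cw Pool.Agent.H333R2.St

/-- An atom: a connected graph such that removing any (possibly empty) clique does not
disconnect it. -/
def IsAtomGraph {V : Type} (G : SimpleGraph V) : Prop :=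
  G.Connected ∧ ∀ K : Set V, G.IsClique K → (G.induce Kᶜ).Preconnected

/-- The `(K₃, H₂)`-free atoms have bounded clique-width. -/
def AtomsBounded {W : Type} (H₂ : SimpleGraph W) : Prop :=
  ∃ c : ℕ, ∀ (V : Type) [Finite V] (G : SimpleGraph V),
    G.CliqueFree 3 → ¬ H₂.IsIndContained G → IsAtomGraph G → cliqueWidth G ≤ c

/-- For both `H₂ = P₁ + S_{1,1,3}` and `H₂ = S_{1,2,3}` the class of `(K₃, H₂)`-free atoms has
bounded clique-width. -/
theorem result : AtomsBounded P1_S113 ∧ AtomsBounded S123 := by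
  constructor
  · obtain ⟨c, hc⟩ := Pool.Agent.Results.MP_042ec1_co.BoundedCw.result
    exact ⟨c, fun V _ G h1 h2 _ => (hc V G h1 h2).1⟩
  · obtain ⟨c, hc⟩ := Pool.Agent.Results.MP_042ec1_co.S123Bounded.result
    exact ⟨c, fun V _ G h1 h2 _ => hc V G h1 h2⟩

end Pool.Agent.Results.MP_43eff6_co.AtomsBoundedCw
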